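import Pool.Agent.L0h18.HZ.Defs

/-!
# Project PZ, module PTOP: topology of the product cone
-/

set_option autoImplicit false

open Pool.Agent.L0h18.CO (IsOpenCone)
open Pool.Agent.L0h18.HZ (CCone)
open Topology

namespace Pool.Agent.L0h2.PZ

section

variable {ρ m : ℕ} {d : Fin m → ℕ} {J : ∀ i, (Fin (d i) → ℝ) →ₗ[ℝ] (Fin ρ → ℝ)}
  {Q : ∀ i, (Fin ρ → ℝ) →ₗ[ℝ] (Fin (d i) → ℝ)}

lemma q_sum (h1 : ∀ i x, Q i (J i x) = x) (h2 : ∀ i j, j ≠ i → ∀ x, Q j (J i x) = 0)
    (y : ∀ i, Fin (d i) → ℝ) (j : Fin m) : Q j (∑ i, J i (y i)) = y j := by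
  rw [map_sum, Finset.sum_eq_single j]
  · exact h1 j (y j)
  · intro i _ hi
    exact h2 i j hi.symm (y i)
  · intro hj
    exact absurd (Finset.mem_univ j) hj

/-- the direct sum as a homeomorphism -/
noncomputable def hom (h1 : ∀ i x, Q i (J i x) = x) (h2 : ∀ i j, j ≠ i → ∀ x, Q j (J i x) = 0)
    (h3 : ∀ x, ∑ i, J i (Q i x) = x) : (Fin ρ → ℝ) ≃ₜ (∀ i, Fin (d i) → ℝ) where
  toFun x := fun i => Q i x
  invFun y := ∑ i, J i (y i)
  left_inv x := h3 x
  right_inv y := funext fun j => q_sum h1 h2 y j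
  continuous_toFun := continuous_pi fun i => LinearMap.continuous_of_finiteDimensional (Q i)
  continuous_invFun := continuous_finset_sum _ fun i _ =>
    (LinearMap.continuous_of_finiteDimensional (J i)).comp (continuous_apply i)

theorem main (h1 : ∀ i x, Q i (J i x) = x) (h2 : ∀ i j, j ≠ i → ∀ x, Q j (J i x) = 0)
    (h3 : ∀ x, ∑ i, J i (Q i x) = x) (P C : ∀ i, Set (Fin (d i) → ℝ))
    (h : ∀ i, IsOpenCone (P i) ∧ closure (P i) = C i ∧ interior (C i) = P i ∧ (P i).Nonempty ∧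
      CCone (C i)) :
    IsOpenCone {x : Fin ρ → ℝ | ∀ i, Q i x ∈ P i} ∧
      closure {x : Fin ρ → ℝ | ∀ i, Q i x ∈ P i} = {x | ∀ i, Q i x ∈ C i} ∧
      interior {x : Fin ρ → ℝ | ∀ i, Q i x ∈ C i} = {x | ∀ i, Q i x ∈ P i} ∧
      ({x : Fin ρ → ℝ | ∀ i, Q i x ∈ P i}).Nonempty ∧ CCone {x : Fin ρ → ℝ | ∀ i, Q i x ∈ C i} := by
  have e1 : ∀ R : ∀ i, Set (Fin (d i) → ℝ), {x : Fin ρ → ℝ | ∀ i, Q i x ∈ R i} =
      (hom h1 h2 h3) ⁻¹' (Set.pi Set.univ R) := by
    intro R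
    ext x
    simp only [Set.mem_setOf_eq, Set.mem_preimage, Set.mem_pi, Set.mem_univ, forall_true_left]
    rfl
  have hcl : closure {x : Fin ρ → ℝ | ∀ i, Q i x ∈ P i} = {x | ∀ i, Q i x ∈ C i} := by
    rw [e1 P, e1 C, ← Homeomorph.preimage_closure, closure_pi_set]
    have : (fun i => closure (P i)) = C := funext fun i => (h i).2.1
    rw [this]
  have hin : interior {x : Fin ρ → ℝ | ∀ i, Q i x ∈ C i} = {x | ∀ i, Q i x ∈ P i} := by
    rw [e1 P, e1 C, ← Homeomorph.preimage_interior, interior_pi_set Set.finite_univ]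
    have : (fun i => interior (C i)) = P := funext fun i => (h i).2.2.1
    rw [this]
  have hcc : CCone {x : Fin ρ → ℝ | ∀ i, Q i x ∈ C i} := by
    refine ⟨?_, ?_, ?_⟩
    · rw [← hcl]
      exact isClosed_closure
    · intro x hx z hz i
      rw [map_add]
      exact (h i).2.2.2.2.add _ (hx i) _ (hz i)
    · intro t ht x hx i
      rw [map_smul]
      exact (h i).2.2.2.2.smul t ht _ (hx i)
  refine ⟨⟨?_, ?_, ?_, ?_⟩, hcl, hin, ?_, hcc⟩
  · rw [← hin]
    exact isOpen_interior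
  · intro x hx z hz i
    rw [map_add]
    exact (h i).1.add _ (hx i) _ (hz i)
  · intro t ht x hx i
    rw [map_smul]
    exact (h i).1.smul t ht _ (hx i)
  · intro x hx hx'
    rw [hcl] at hx hx'
    have h4 : ∀ i, Q i x = 0 := by
      intro i
      refine (h i).1.pointed (Q i x) ?_ ?_
      · rw [(h i).2.1]
        exact hx i
      · rw [(h i).2.1]
        have h5 := hx' i
        rw [map_neg] at h5
        exact h5
    rw [← h3 x]
    exact Finset.sum_eq_zero fun i _ => by rw [h4 i, map_zero]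
  · choose y hy using fun i => (h i).2.2.2.1
    refine ⟨∑ i, J i (y i), fun j => ?_⟩
    rw [q_sum h1 h2 y j]
    exact hy j

end

end Pool.Agent.L0h2.PZ
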