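import Pool.Agent.L0h16.PZ.Stm
import Pool.Agent.L0h2.PZ.PT0

/-!
# Project PZ, module PTOP: topology of the product cone
-/

set_option autoImplicit false

namespace Pool.Agent.L0h2.PZ

open Pool.Agent.L0h16.PZ

theorem t_PTOP : S_PTOP := by
  intro ρ m d J Q hD P C h
  exact main hD.same hD.other hD.sum P C h

end Pool.Agent.L0h2.PZ
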